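import Pool.Agent.Y466.FT.Defs

/-!
# Knots with few crossings and with trivial Vassiliev invariants of large order: the words

The words `a n` in the free group generated by `σ₁²`, `σ₂²`: `a 0 = σ₁²`, `a 1 = σ₂²` and
`a (n + 2) = [a (n + 1), (a n)⁻¹]`, written with `2 ^ (n + 1)` letters.
-/

set_option autoImplicit false

namespace Pool.Agent.L5helper92.CR

open Pool.Agent.H835R2.Knot Pool.Agent.Y466.FT

/-- The braid word `σ₁²`. -/
def s1 : Braid := [(true, 0), (true, 0)]

/-- The braid word `σ₂²`. -/
def s2 : Braid := [(true, 1), (true, 1)]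

/-- The words `a_n`, `a_{n+1}`, `e_n`, where `e_n` represents `a_n⁻¹ a_{n+1} a_n`. -/
def st : ℕ → Braid × Braid × Braid
  | 0 => (s1, s2, inv s1 ++ (s2 ++ s1))
  | n + 1 => ((st n).2.1, (st n).2.1 ++ inv (st n).2.2, inv (st n).2.2 ++ (st n).2.1)

/-- The word `a_n`. -/
def aw (n : ℕ) : Braid := (st n).1

/-- The word by which `a_n` is conjugated. -/
def yw (n : ℕ) : Braid := if n % 3 = 2 then [(true, 0)] else [(false, 0), (false, 0)]

/-- The conjugate of `a_n`. -/
def bd (n : ℕ) : Braid := yw n ++ (aw n ++ inv (yw n))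

/-- The first maximum of the diagram `birth 0 b :: w` is replaced by a curve with two maxima and one
minimum, and the braid word `β` is put on its first three strands. -/
def insB (b : Bool) (β : Braid) (w : Word) : Word :=
  Piece.birth 0 b :: Piece.birth 1 (!b) :: (draw β ++ Piece.death 0 :: w)

end Pool.Agent.L5helper92.CR
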