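import Pool.Agent.Y466.RW.Knot
import Pool.Agent.L5helper92.CR.Defs

/-!
# Commutators lower the degree
-/

set_option autoImplicit false

namespace Pool.Agent.L5helper92.CR

open Pool.Agent.H835R2.Knot Pool.Agent.Y466.FT Pool.Agent.Y466.RW

section
variable {M : Type} [Monoid M]

/-- `x` and `y` are equal modulo the relations `R`. -/
def Eqv (R : Set (M × M)) (x y : M) : Prop := ∀ c : Con M, (∀ r ∈ R, c r.1 r.2) → c x y

/-- The difference operator of `w` lowers the degree by `p`. -/
def Drop (R E : Set (M × M)) (p : ℕ) (w : M) : Prop :=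
  ∀ (A : Type) [AddCommGroup A] (n : ℕ) (φ : M → A), Iv R φ → Dg E (n + p) φ → Dg E n (Tr w φ)

variable {R E : Set (M × M)}

theorem iv_eqv {A : Type} {φ : M → A} (h : Iv R φ) {x y : M} (e : Eqv R x y) (a b : M) :
    φ (a * x * b) = φ (a * y * b) := e (cphi φ) (fun r hr => h r hr) a b

theorem Drop.congr {p : ℕ} {x y : M} (h : Drop R E p x) (e : Eqv R x y) : Drop R E p y := by
  intro A _ n φ hφ hd
  refine (h A n φ hφ hd).congr fun z => ?_
  have := iv_eqv hφ e 1 z
  simp only [one_mul] at this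
  simp only [Tr, this]

theorem Drop.comm {p q : ℕ} {a b a' b' : M} (ha : Drop R E p a) (hb : Drop R E q b)
    (ha' : Eqv R (a * a') 1) (hb' : Eqv R (b * b') 1) : Drop R E (p + q) (a * b * a' * b') := by
  intro A _ n φ hφ hd
  have h1 : Dg E n (Tr b (Tr a φ)) := hb A n _ (hφ.tr a) (ha A (n + q) φ hφ (by
    have : n + q + p = n + (p + q) := by omega
    rw [this]; exact hd))
  have h2 : Dg E n (Tr a (Tr b φ)) := ha A n _ (hφ.tr b) (hb A (n + p) φ hφ (by
    have : n + p + q = n + (p + q) := by omega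
    rw [this]; exact hd))
  refine ((h1.sub h2).trans (a' * b')).congr fun x => ?_
  have e1 := iv_eqv hφ ha' b (b' * x)
  have e2 := iv_eqv hφ hb' 1 x
  simp only [Tr, mul_assoc, mul_one, one_mul] at e1 e2 ⊢
  rw [e1, e2]
  abel

theorem Drop.conj {p : ℕ} {w g g' : M} (h : Drop R E p w) (hg : Eqv R (g * g') 1) :
    Drop R E p (g * (w * g')) := by
  intro A _ n φ hφ hd
  refine ((h A n _ (iv_trans hφ g) (hd.trans g)).trans g').congr fun x => ?_
  have e2 := iv_eqv hφ hg 1 x
  simp only [Tr, mul_assoc, one_mul] at e2 ⊢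
  rw [e2]

theorem Drop.inv {p : ℕ} {a a' : M} (h : Drop R E p a) (ha : Eqv R (a * a') 1) :
    Drop R E p a' := by
  intro A _ n φ hφ hd
  refine ((h A n φ hφ hd).trans a').neg.congr fun x => ?_
  have e2 := iv_eqv hφ ha 1 x
  simp only [Tr, mul_assoc, one_mul] at e2 ⊢
  rw [e2]
  abel

theorem Drop.pure {w : M} (h : Pu R E w) : Drop R E 1 w := by
  intro A _ n φ hφ hd
  exact hd.tr hφ h

theorem Dg.succ' {A : Type} [AddCommGroup A] : ∀ (n : ℕ) {φ : M → A}, Dg E n φ → Dg E (n + 1) φ := by
  intro n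
  induction n with
  | zero =>
    intro φ h e _ a p
    show φ (a * e.1 * p) - φ (a * e.2 * p) = 0
    rw [h, h, sub_self]
  | succ n ih => exact fun h e he a => ih (h e he a)

theorem Dg.mono' {A : Type} [AddCommGroup A] {m n : ℕ} (hmn : m ≤ n) {φ : M → A} (h : Dg E m φ) :
    Dg E n φ := by
  induction hmn with
  | refl => exact h
  | step _ ih => exact Dg.succ' _ ih

theorem Drop.eq {p : ℕ} {w : M} (h : Drop R E p w) {A : Type} [AddCommGroup A] {φ : M → A}
    (hφ : Iv R φ) {m : ℕ} (hd : Dg E m φ) (hm : m ≤ p) : φ w = φ 1 := by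
  have h1 := h A 0 φ hφ (Dg.mono' (by omega) hd) 1
  unfold Tr at h1
  rw [mul_one] at h1
  exact sub_eq_zero.1 h1

end

/-! ### The words `a_n` -/

section
variable (m : Fin 1 → ℕ)

/-- The class of a braid word. -/
abbrev sg (w : Braid) : Fin 1 → FreeMonoid (Bool × ℕ) := Pi.mulSingle 0 (FreeMonoid.ofList w)

theorem sg_append (v w : Braid) : sg (v ++ w) = sg v * sg w := by
  unfold sg
  rw [FreeMonoid.ofList_append, Pi.mulSingle_mul]

/-- The braid word uses the strands. -/
def Ok (w : Braid) : Prop := ∀ l ∈ w, l.2 + 1 < m 0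

variable {m}

theorem Ok.append {v w : Braid} (hv : Ok m v) (hw : Ok m w) : Ok m (v ++ w) := by
  intro l hl
  rcases List.mem_append.1 hl with h | h
  · exact hv l h
  · exact hw l h

theorem Ok.inv {w : Braid} (hw : Ok m w) : Ok m (Pool.Agent.Y466.FT.inv w) := by
  intro l hl
  unfold Pool.Agent.Y466.FT.inv at hl
  rw [List.mem_reverse, List.mem_map] at hl
  obtain ⟨x, hx, rfl⟩ := hl
  exact hw x hx

theorem inv_inv (w : Braid) : inv (inv w) = w := by
  unfold inv
  rw [List.map_reverse, List.reverse_reverse, List.map_map]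
  have : ((fun l : Bool × ℕ => (!l.1, l.2)) ∘ fun l : Bool × ℕ => (!l.1, l.2)) = id := by
    funext l; simp
  rw [this, List.map_id]

theorem inv_append (v w : Braid) : inv (v ++ w) = inv w ++ inv v := by
  unfold inv
  rw [List.map_append, List.reverse_append]

theorem eqv_inv {w : Braid} (hw : Ok m w) : Eqv (RS m) (sg w * sg (inv w)) 1 := by
  intro c hR
  rw [← sg_append]
  have h := cl_inv (j := 0) hR hw
  rw [← map_one (cl c 0), cl_eq, Pi.mulSingle_one] at h
  exact h

theorem eqv_inv' {w : Braid} (hw : Ok m w) : Eqv (RS m) (sg (inv w) * sg w) 1 := by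
  have := eqv_inv hw.inv
  rwa [inv_inv] at this

theorem key (hm : 2 < m 0) (n : ℕ) : (Ok m (st n).1 ∧ Ok m (st n).2.1 ∧ Ok m (st n).2.2) ∧
    Eqv (RS m) (sg (st n).2.2) (sg (inv (st n).1) * sg (st n).2.1 * sg (st n).1) ∧
    Drop (RS m) (ES m) (Nat.fib (n + 1)) (sg (st n).1) ∧
    Drop (RS m) (ES m) (Nat.fib (n + 2)) (sg (st n).2.1) := by
  induction n with
  | zero =>
    have h1 : Ok m s1 := by
      intro l hl
      simp only [s1, List.mem_cons, List.not_mem_nil, or_false, or_self] at hl
      subst hl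
      show 0 + 1 < m 0
      omega
    have h2 : Ok m s2 := by
      intro l hl
      simp only [s2, List.mem_cons, List.not_mem_nil, or_false, or_self] at hl
      subst hl
      show 1 + 1 < m 0
      omega
    refine ⟨⟨h1, h2, h1.inv.append (h2.append h1)⟩, ?_, ?_, ?_⟩
    · intro c _
      show c (sg (inv s1 ++ (s2 ++ s1))) _
      rw [sg_append, sg_append, mul_assoc]
      exact c.refl _
    · refine Drop.pure (pu h1 ?_)
      show perm s1 = 1
      simp [perm, s1]
    · refine Drop.pure (pu h2 ?_)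
      show perm s2 = 1
      simp [perm, s2]
  | succ n ih =>
    obtain ⟨⟨o1, o2, o3⟩, he, d1, d2⟩ := ih
    generalize hst : st n = s at o1 o2 o3 he d1 d2
    obtain ⟨a, b, e⟩ := s
    simp only at o1 o2 o3 he d1 d2
    have hst' : st (n + 1) = (b, b ++ inv e, inv e ++ b) := by
      show ((st n).2.1, (st n).2.1 ++ inv (st n).2.2, inv (st n).2.2 ++ (st n).2.1) = _
      rw [hst]
    rw [hst']
    simp only
    -- the inverse of `e`
    have hi : Eqv (RS m) (sg (inv a) * sg (inv b) * sg a) (sg (inv e)) := by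
      intro c hR
      have e1 : c (sg e) (sg (inv a) * sg b * sg a) := he c hR
      have e2 : c (sg (inv e) * sg e) 1 := eqv_inv' o3 c hR
      have e3 : c (sg a * sg (inv a)) 1 := eqv_inv o1 c hR
      have e3' : c (sg (inv a) * sg a) 1 := eqv_inv' o1 c hR
      have e4 : c (sg b * sg (inv b)) 1 := eqv_inv o2 c hR
      rw [← Con.eq] at e1 e2 e3 e3' e4 ⊢
      simp only [Con.coe_mul, Con.coe_one] at e1 e2 e3 e3' e4 ⊢
      rw [e1] at e2
      generalize ((sg a : Fin 1 → FreeMonoid (Bool × ℕ)) : c.Quotient) = A at *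
      generalize ((sg (inv a) : Fin 1 → FreeMonoid (Bool × ℕ)) : c.Quotient) = A' at *
      generalize ((sg b : Fin 1 → FreeMonoid (Bool × ℕ)) : c.Quotient) = B at *
      generalize ((sg (inv b) : Fin 1 → FreeMonoid (Bool × ℕ)) : c.Quotient) = B' at *
      generalize ((sg (inv e) : Fin 1 → FreeMonoid (Bool × ℕ)) : c.Quotient) = E' at *
      calc A' * B' * A = (E' * (A' * B * A)) * (A' * B' * A) := by rw [e2, one_mul]
        _ = E' * A' * (B * ((A * A') * B')) * A := by simp only [mul_assoc]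
        _ = E' * (A' * A) := by rw [e3, one_mul, e4, mul_one, mul_assoc]
        _ = E' := by rw [e3', mul_one]
    refine ⟨⟨o2, o2.append o3.inv, o3.inv.append o2⟩, ?_, d2, ?_⟩
    · -- `inv e ++ b` is the conjugate
      intro c hR
      have e3 : c (sg b * sg (inv b)) 1 := eqv_inv o2 c hR
      have e3' : c (sg (inv b) * sg b) 1 := eqv_inv' o2 c hR
      rw [sg_append, sg_append]
      rw [← Con.eq] at e3' ⊢
      simp only [Con.coe_mul, Con.coe_one] at e3' ⊢
      rw [← mul_assoc, e3', one_mul]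
    · have h3 : Drop (RS m) (ES m) (Nat.fib (n + 2) + Nat.fib (n + 1))
          (sg b * sg (inv a) * sg (inv b) * sg a) :=
        d2.comm (d1.inv (eqv_inv o1)) (eqv_inv o2) (eqv_inv' o1)
      have h4 : Nat.fib (n + 1 + 2) = Nat.fib (n + 2) + Nat.fib (n + 1) := by
        rw [Nat.fib_add_two, add_comm]
      rw [h4]
      refine h3.congr fun c hR => ?_
      have h5 := hi c hR
      rw [sg_append]
      have h6 := c.mul (c.refl (sg b)) h5
      simpa only [mul_assoc] using h6

theorem drop_bd (hm : 2 < m 0) (n : ℕ) : Drop (RS m) (ES m) (Nat.fib (n + 1)) (sg (bd n)) := by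
  have h := (key hm n).2.2.1
  have hy : Ok m (yw n) := by
    intro l hl
    have : l.2 = 0 := by
      unfold yw at hl
      split_ifs at hl
      · simp only [List.mem_cons, List.not_mem_nil, or_false] at hl
        rw [hl]
      · simp only [List.mem_cons, List.not_mem_nil, or_false, or_self] at hl
        rw [hl]
    omega
  unfold bd
  rw [sg_append, sg_append]
  exact h.conj (eqv_inv hy)

end

end Pool.Agent.L5helper92.CR
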