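import Pool.Agent.N738.VV.Ex
import Pool.Agent.N221.VV.ZS
import Pool.Agent.N432.VV.RM
import Pool.Agent.N693.VV.Inv
import Pool.Agent.L5helper92.CR.Defs

/-!
# Fox 5-colourings as a state model
-/

set_option autoImplicit false

namespace Pool.Agent.L5helper92.CR

open Pool.Agent.H835R2.Knot Pool.Agent.Y466.FT Pool.Agent.N566.VV
open Finset

/-- The colours below a piece `pos`. -/
def fp (p : ZMod 5 × ZMod 5) : ZMod 5 × ZMod 5 := (p.2, 2 * p.2 - p.1)

/-- The colours below a piece `neg`. -/
def fn (p : ZMod 5 × ZMod 5) : ZMod 5 × ZMod 5 := (2 * p.1 - p.2, p.1)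

/-- The state model of the 5-colourings. -/
noncomputable def T5 : Dat (ZMod 5) where
  rev x := x
  c _ := 1
  d _ := 1
  P := fun p q => if q = fp p then 1 else 0
  Q := fun p q => if q = fn p then 1 else 0
  k := 1
  k' := 1

theorem ite_mul_ite (p q : Prop) [Decidable p] [Decidable q] :
    ((if p then 1 else 0 : ℂ) * (if q then 1 else 0)) = if p ∧ q then 1 else 0 := by
  split_ifs <;> simp_all

theorem T5_PQ : T5.P * T5.Q = 1 := by
  funext p q
  rw [Matrix.mul_apply]
  simp only [T5, ite_mul, one_mul, zero_mul]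
  rw [Finset.sum_ite_eq' Finset.univ (fp p)]
  simp only [Finset.mem_univ, if_true, Matrix.one_apply]
  have : fn (fp p) = p := by
    obtain ⟨x, y⟩ := p
    simp only [fp, fn, Prod.mk.injEq, and_true]
    ring
  rw [this]
  simp only [eq_comm]

theorem T5_QP : T5.Q * T5.P = 1 := by
  funext p q
  rw [Matrix.mul_apply]
  simp only [T5, ite_mul, one_mul, zero_mul]
  rw [Finset.sum_ite_eq' Finset.univ (fn p)]
  simp only [Finset.mem_univ, if_true, Matrix.one_apply]
  have : fp (fn p) = p := by
    obtain ⟨x, y⟩ := p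
    simp only [fp, fn, Prod.mk.injEq, true_and]
    ring
  rw [this]
  simp only [eq_comm]

theorem T5_yb (l i k i' k' l' : ZMod 5) :
    ∑ a, ∑ b, ∑ m, T5.P (l, i) (a, m) * T5.P (m, k) (b, l') * T5.P (a, b) (i', k') =
      ∑ a, ∑ b, ∑ m, T5.P (i, k) (a, b) * T5.P (l, a) (i', m) * T5.P (m, b) (k', l') := by
  have h1 : ∑ a, ∑ b, ∑ m, T5.P (l, i) (a, m) * T5.P (m, k) (b, l') * T5.P (a, b) (i', k') =
      T5.P (2 * i - l, k) (k, l') * T5.P (i, k) (i', k') := by
    rw [Finset.sum_eq_single i, Finset.sum_eq_single k, Finset.sum_eq_single (2 * i - l)]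
    · simp [T5, fp]
    · intro m _ hm
      simp [T5, fp, hm]
    · simp
    · intro b _ hb
      refine Finset.sum_eq_zero fun m _ => ?_
      simp [T5, fp, hb]
    · simp
    · intro a _ ha
      refine Finset.sum_eq_zero fun b _ => Finset.sum_eq_zero fun m _ => ?_
      simp [T5, fp, ha]
    · simp
  have h2 : ∑ a, ∑ b, ∑ m, T5.P (i, k) (a, b) * T5.P (l, a) (i', m) * T5.P (m, b) (k', l') =
      T5.P (l, k) (i', 2 * k - l) * T5.P (2 * k - l, 2 * k - i) (k', l') := by
    rw [Finset.sum_eq_single k, Finset.sum_eq_single (2 * k - i), Finset.sum_eq_single (2 * k - l)]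
    · simp [T5, fp]
    · intro m _ hm
      simp [T5, fp, hm]
    · simp
    · intro b _ hb
      refine Finset.sum_eq_zero fun m _ => ?_
      simp [T5, fp, hb]
    · simp
    · intro a _ ha
      refine Finset.sum_eq_zero fun b _ => Finset.sum_eq_zero fun m _ => ?_
      simp [T5, fp, ha]
    · simp
  rw [h1, h2]
  simp only [T5, fp, ite_mul_ite, Prod.mk.injEq, true_and, and_true]
  have e1 : 2 * k - (2 * i - l) = 2 * (2 * k - i) - (2 * k - l) := by ring
  rw [e1]
  congr 1
  apply propext
  tauto

theorem T5_ok : T5.Ok where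
  rr _ := rfl
  zz _ := by simp [T5]
  kk := by simp [T5]
  pq := T5_PQ
  qp := T5_QP
  yb := T5_yb
  sb1 a x y z := by
    simp only [T5, fp, fn, one_mul, Prod.mk.injEq]
    congr 1
    apply propext
    constructor
    · rintro ⟨rfl, rfl⟩
      exact ⟨by ring, rfl⟩
    · rintro ⟨rfl, rfl⟩
      exact ⟨rfl, by ring⟩
  sb2 a x y z := by
    simp only [T5, fp, fn, one_mul, Prod.mk.injEq]
    congr 1
    apply propext
    constructor
    · rintro ⟨rfl, rfl⟩
      exact ⟨rfl, rfl⟩
    · rintro ⟨rfl, rfl⟩
      exact ⟨rfl, rfl⟩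
  sd1 a b e x := by
    simp only [T5, fp, fn, one_mul, Prod.mk.injEq]
    congr 1
    apply propext
    constructor
    · rintro ⟨rfl, rfl⟩
      exact ⟨rfl, rfl⟩
    · rintro ⟨rfl, rfl⟩
      exact ⟨rfl, rfl⟩
  sd2 a b e x := by
    simp only [T5, fp, fn, one_mul, Prod.mk.injEq]
    congr 1
    apply propext
    constructor
    · rintro ⟨rfl, rfl⟩
      exact ⟨rfl, by ring⟩
    · rintro ⟨rfl, rfl⟩
      exact ⟨by ring, rfl⟩
  fb1 y z := by
    simp only [T5, fp, one_mul, mul_one, Prod.mk.injEq]
    rw [Finset.sum_eq_single y]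
    · congr 1
      apply propext
      constructor
      · rintro ⟨_, h⟩
        rw [h]; ring
      · rintro rfl
        exact ⟨rfl, by ring⟩
    · intro x _ hx
      rw [if_neg]
      rintro ⟨h, _⟩
      exact hx h.symm
    · simp
  fb2 y z := by
    simp only [T5, fn, one_mul, mul_one, Prod.mk.injEq]
    rw [Finset.sum_eq_single z]
    · congr 1
      apply propext
      constructor
      · rintro ⟨h, _⟩
        rw [h]; ring
      · rintro rfl
        exact ⟨by ring, rfl⟩
    · intro x _ hx
      rw [if_neg]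
      rintro ⟨_, h⟩
      exact hx h.symm
    · simp
  fd1 y z := by
    simp only [T5, fp, one_mul, mul_one, Prod.mk.injEq]
    rw [Finset.sum_eq_single z]
    · congr 1
      apply propext
      constructor
      · rintro ⟨_, h⟩
        have : z + (y - z) = z + 0 := by
          have h' : z = z - (y - z) := by
            calc z = 2 * z - y := h
              _ = z - (y - z) := by ring
          have h2 : y - z = 0 := by
            have := sub_eq_self.1 h'.symm
            exact this
          rw [h2]
        have := add_left_cancel this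
        exact (sub_eq_zero.1 this).symm
      · rintro rfl
        exact ⟨rfl, by ring⟩
    · intro x _ hx
      rw [if_neg]
      rintro ⟨h, _⟩
      exact hx h
    · simp
  fd2 y z := by
    simp only [T5, fn, one_mul, mul_one, Prod.mk.injEq]
    rw [Finset.sum_eq_single y]
    · congr 1
      apply propext
      constructor
      · rintro ⟨h, _⟩
        have h' : y = y - (z - y) := by
          calc y = 2 * y - z := h
            _ = y - (z - y) := by ring
        have h2 : z - y = 0 := sub_eq_self.1 h'.symm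
        exact sub_eq_zero.1 h2
      · rintro rfl
        exact ⟨by ring, rfl⟩
    · intro x _ hx
      rw [if_neg]
      rintro ⟨_, h⟩
      exact hx h
    · simp

theorem T5_inv {D E : Word} (h : Isotopic D E) (σ : ℕ → ZMod 5) : val T5 D σ = val T5 E σ :=
  Pool.Agent.N693.VV.s_inv Pool.Agent.N738.VV.s_ex Pool.Agent.N221.VV.s_zs Pool.Agent.N432.VV.s_rm
    (ZMod 5) T5 T5_ok D E h σ

/-! ### The action of braids -/

/-- The colours of the first three strands below a letter. -/
def ac1 (l : Bool × ℕ) (s : ZMod 5 × ZMod 5 × ZMod 5) : ZMod 5 × ZMod 5 × ZMod 5 :=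
  match l with
  | (true, 0) => (s.2.1, 2 * s.2.1 - s.1, s.2.2)
  | (true, _) => (s.1, s.2.2, 2 * s.2.2 - s.2.1)
  | (false, 0) => (2 * s.1 - s.2.1, s.1, s.2.2)
  | (false, _) => (s.1, 2 * s.2.1 - s.2.2, s.2.1)

/-- The colours of the first three strands below a braid word. -/
def ac (w : Braid) (s : ZMod 5 × ZMod 5 × ZMod 5) : ZMod 5 × ZMod 5 × ZMod 5 :=
  w.foldl (fun s l => ac1 l s) s

theorem ac_append (v w : Braid) (s : ZMod 5 × ZMod 5 × ZMod 5) : ac (v ++ w) s = ac w (ac v s) :=
  List.foldl_append

/-- Change the first three colours. -/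
def set3 (s : ZMod 5 × ZMod 5 × ZMod 5) (σ : ℕ → ZMod 5) : ℕ → ZMod 5 :=
  fun p => if p = 0 then s.1 else if p = 1 then s.2.1 else if p = 2 then s.2.2 else σ p

theorem opP_piece (l : Bool × ℕ) (hl : l.2 < 2) (d : ℕ → Bool) (f : F (ZMod 5))
    (σ : ℕ → ZMod 5) :
    opP T5 (piece l) d f σ = f (set3 (ac1 l (σ 0, σ 1, σ 2)) σ) := by
  obtain ⟨b, i⟩ := l
  have hi : i = 0 ∨ i = 1 := by simp only at hl; omega
  have hk : ∀ x : Bool, (if x = true then T5.k else T5.k') = 1 := by intro x; simp [T5]
  cases b
  · show ((if d i = d (i + 1) then T5.k' else T5.k) • Xl T5.Q i f) σ = _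
    have : (if d i = d (i + 1) then T5.k' else T5.k) = 1 := by simp [T5]
    rw [this, one_smul]
    unfold Xl
    rw [Finset.sum_eq_single (fn (σ i, σ (i + 1)))]
    · have : T5.Q (σ i, σ (i + 1)) (fn (σ i, σ (i + 1))) = 1 := by simp [T5]
      rw [this, one_mul]
      congr 1
      funext p
      rcases hi with rfl | rfl
      · simp only [updS, set3, ac1, fn]
        by_cases h0 : p = 0
        · simp [h0]
        · by_cases h1 : p = 1
          · simp [h1]
          · by_cases h2 : p = 2
            · simp [h2]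
            · simp [h0, h1, h2]
      · simp only [updS, set3, ac1, fn]
        by_cases h0 : p = 0
        · simp [h0]
        · by_cases h1 : p = 1
          · simp [h1]
          · by_cases h2 : p = 2
            · simp [h2]
            · simp [h0, h1, h2]
    · intro p _ hp
      have : T5.Q (σ i, σ (i + 1)) p = 0 := by
        simp only [T5]
        rw [if_neg hp]
      rw [this, zero_mul]
    · intro h
      exact absurd (Finset.mem_univ _) h
  · show ((if d i = d (i + 1) then T5.k else T5.k') • Xl T5.P i f) σ = _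
    have : (if d i = d (i + 1) then T5.k else T5.k') = 1 := by simp [T5]
    rw [this, one_smul]
    unfold Xl
    rw [Finset.sum_eq_single (fp (σ i, σ (i + 1)))]
    · have : T5.P (σ i, σ (i + 1)) (fp (σ i, σ (i + 1))) = 1 := by simp [T5]
      rw [this, one_mul]
      congr 1
      funext p
      rcases hi with rfl | rfl
      · simp only [updS, set3, ac1, fp]
        by_cases h0 : p = 0
        · simp [h0]
        · by_cases h1 : p = 1
          · simp [h1]
          · by_cases h2 : p = 2
            · simp [h2]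
            · simp [h0, h1, h2]
      · simp only [updS, set3, ac1, fp]
        by_cases h0 : p = 0
        · simp [h0]
        · by_cases h1 : p = 1
          · simp [h1]
          · by_cases h2 : p = 2
            · simp [h2]
            · simp [h0, h1, h2]
    · intro p _ hp
      have : T5.P (σ i, σ (i + 1)) p = 0 := by
        simp only [T5]
        rw [if_neg hp]
      rw [this, zero_mul]
    · intro h
      exact absurd (Finset.mem_univ _) h

theorem set3_self (σ : ℕ → ZMod 5) : set3 (σ 0, σ 1, σ 2) σ = σ := by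
  funext p
  unfold set3
  by_cases h0 : p = 0
  · simp [h0]
  · by_cases h1 : p = 1
    · simp [h1]
    · by_cases h2 : p = 2
      · simp [h2]
      · simp [h0, h1, h2]

theorem opD_draw (β : Braid) (hβ : ∀ l ∈ β, l.2 < 2) (w : Word) (A : Front) (f : F (ZMod 5))
    (σ : ℕ → ZMod 5) :
    opD T5 (draw β ++ w) A f σ =
      opD T5 w (run (draw β) A) f (set3 (ac β (σ 0, σ 1, σ 2)) σ) := by
  induction β generalizing A σ with
  | nil =>
    show opD T5 w A f σ = opD T5 w A f (set3 (σ 0, σ 1, σ 2) σ)
    rw [set3_self]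
  | cons l β ih =>
    show opP T5 (piece l) A.dir (opD T5 (draw β ++ w) ((piece l).act A) f) σ = _
    rw [opP_piece l (hβ l List.mem_cons_self)]
    rw [ih (fun x hx => hβ x (List.mem_cons_of_mem _ hx))]
    show opD T5 w (run (draw β) ((piece l).act A)) f _ =
      opD T5 w (run (draw β) ((piece l).act A)) f _
    congr 1
    funext p
    show set3 _ _ p = set3 (ac β (ac1 l (σ 0, σ 1, σ 2))) σ p
    have e : (set3 (ac1 l (σ 0, σ 1, σ 2)) σ 0, set3 (ac1 l (σ 0, σ 1, σ 2)) σ 1,
        set3 (ac1 l (σ 0, σ 1, σ 2)) σ 2) = ac1 l (σ 0, σ 1, σ 2) := by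
      simp [set3]
    rw [e]
    unfold set3
    by_cases h0 : p = 0
    · simp [h0]
    · by_cases h1 : p = 1
      · simp [h1]
      · by_cases h2 : p = 2
        · simp [h2]
        · simp [h0, h1, h2]

end Pool.Agent.L5helper92.CR
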