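import Pool.Agent.L5helper92.CR.Drop

/-!
# The Vassiliev invariants of the new diagrams
-/

set_option autoImplicit false

namespace Pool.Agent.L5helper92.CR

open Pool.Agent.H835R2 Pool.Agent.H835R2.Knot Pool.Agent.Y466.FT Pool.Agent.Y466.RW

/-- The part of the diagram above the braid. -/
def up0 (b : Bool) : Word := [Piece.birth 0 b, Piece.birth 1 (!b)]

/-- The part of the diagram below the braid. -/
def lo0 (w : Word) : Fin 1 → Word := fun _ => Piece.death 0 :: w

theorem plug_eq (b : Bool) (w : Word) (β : Braid) :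
    plug (up0 b) (lo0 w) piece (sg β) = insB b β w := by
  unfold plug up0 lo0 sg insB draw
  simp

theorem plug_one (b : Bool) (w : Word) :
    plug (up0 b) (lo0 w) piece 1 = insB b [] w := by
  unfold plug up0 lo0 insB draw
  simp

theorem wd_eq (b : Bool) (w : Word) : Pool.Agent.Y466.FT.wd (up0 b) (lo0 w) 0 = 4 := by
  unfold Pool.Agent.Y466.FT.wd up0
  rfl

theorem base_iso (b : Bool) (w : Word) (h : IsKnot (Piece.birth 0 b :: w)) :
    IsKnot (insB b [] w) ∧ Isotopic (Piece.birth 0 b :: w) (insB b [] w) := by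
  have fr : Knot.Fits [Piece.birth (0 + 1) (!b), Piece.death 0]
      (Knot.run [Piece.birth 0 b] Front.empty) := by
    cases b <;> decide
  exact isKnot_move (x := [Piece.birth 0 b]) (y := w) (l := [])
    (r := [Piece.birth (0 + 1) (!b), Piece.death 0]) (Or.inr (Move.zigzag₂ 0 (!b))) fr h

theorem const_deg : DegreeLE 0 (fun _ : Word => (1 : ℤ)) := by
  intro D _ S _ hS
  obtain ⟨x, rfl⟩ := Finset.card_eq_one.1 (by simpa using hS)
  rw [show ({x} : Finset ℕ).powerset = {∅, {x}} from rfl]
  rw [Finset.sum_pair (by simp)]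
  simp

theorem phi_eq (b : Bool) (w : Word) (n : ℕ) {A : Type} [AddCommGroup A] {v : Word → A}
    (hv : IsInvariant v) {m : ℕ} (hd : DegreeLE m v) (hm : m < Nat.fib (n + 1)) :
    ext v (insB b (bd n) w) = ext v (insB b [] w) := by
  have h1 := iv_phi (up0 b) (lo0 w) hv
  have h2 := dg_phi (up0 b) (lo0 w) hd
  have h3 : 2 < Pool.Agent.Y466.FT.wd (up0 b) (lo0 w) 0 := by rw [wd_eq]; omega
  have h4 := (drop_bd h3 n).eq h1 h2 hm
  unfold phi at h4
  rw [plug_eq, plug_one] at h4
  exact h4

theorem knot_bd (b : Bool) (w : Word) (n : ℕ) (h : IsKnot (Piece.birth 0 b :: w)) :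
    IsKnot (insB b (bd n) w) := by
  have h1 := phi_eq b w n (fun _ _ _ _ => rfl) const_deg (Nat.fib_pos.2 (Nat.succ_pos n))
  unfold ext at h1
  rw [if_pos (base_iso b w h).1] at h1
  by_contra hc
  rw [if_neg hc] at h1
  exact absurd h1 (by norm_num)

theorem vas_bd (b : Bool) (w : Word) (n : ℕ) (h : IsKnot (Piece.birth 0 b :: w)) {A : Type}
    [AddCommGroup A] {v : Word → A} (hv : IsInvariant v) {m : ℕ} (hd : DegreeLE m v)
    (hm : m < Nat.fib (n + 1)) : v (insB b (bd n) w) = v (Piece.birth 0 b :: w) := by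
  have h1 := phi_eq b w n hv hd hm
  unfold ext at h1
  rw [if_pos (base_iso b w h).1, if_pos (knot_bd b w n h)] at h1
  rw [h1]
  exact (hv _ _ h (base_iso b w h).2).symm

theorem exists_form {K : Word} (h : IsKnot K) : ∃ b w, K = Piece.birth 0 b :: w := by
  rcases K with _ | ⟨p, w⟩
  · exact absurd h.2 (by decide)
  · have h1 : p.Fits Front.empty := h.1.1.1
    cases p with
    | birth i b =>
      have : i ≤ 0 := h1
      have hi : i = 0 := by omega
      subst hi
      exact ⟨b, w, rfl⟩
    | death i =>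
      have : i + 2 ≤ 0 := h1.1
      omega
    | pos i =>
      have : i + 2 ≤ 0 := h1
      omega
    | neg i =>
      have : i + 2 ≤ 0 := h1
      omega

end Pool.Agent.L5helper92.CR
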