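import Pool.Agent.L5helper92.CR.Per
import Pool.Agent.L5helper92.CR.Kn

/-!
# Knots with few crossings and the same Vassiliev invariants of large order
-/

set_option autoImplicit false

namespace Pool.Agent.L5helper92.CR

open Pool.Agent.H835R2 Pool.Agent.H835R2.Knot Pool.Agent.Y466.FT Pool.Agent.N566.VV

/-- The family of diagrams obtained by repeated insertions. -/
def it (b : Bool) (n : ℕ) (w : Word) : ℕ → Word
  | 0 => w
  | r + 1 => Piece.birth 1 (!b) :: (draw (bd n) ++ Piece.death 0 :: it b n w r)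

theorem it_succ (b : Bool) (n : ℕ) (w : Word) (r : ℕ) :
    Piece.birth 0 b :: it b n w (r + 1) = insB b (bd n) (it b n w r) := rfl

theorem it_knot (b : Bool) (n : ℕ) (w : Word) (h : IsKnot (Piece.birth 0 b :: w)) (r : ℕ) :
    IsKnot (Piece.birth 0 b :: it b n w r) := by
  induction r with
  | zero => exact h
  | succ r ih =>
    rw [it_succ]
    exact knot_bd b _ n ih

theorem it_vas (b : Bool) (n : ℕ) (w : Word) (h : IsKnot (Piece.birth 0 b :: w)) (r : ℕ)
    {A : Type} [AddCommGroup A] {v : Word → A} (hv : IsInvariant v) {m : ℕ} (hd : DegreeLE m v)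
    (hm : m < Nat.fib (n + 1)) : v (Piece.birth 0 b :: it b n w r) = v (Piece.birth 0 b :: w) := by
  induction r with
  | zero => rfl
  | succ r ih =>
    rw [it_succ, vas_bd b _ n (it_knot b n w h r) hv hd hm, ih]

theorem it_crossings (b : Bool) (n : ℕ) (w : Word) (r : ℕ) :
    crossings (Piece.birth 0 b :: it b n w r) ≤
      crossings (Piece.birth 0 b :: w) + r * (2 ^ (n + 1) + 4) := by
  induction r with
  | zero => simp [it]
  | succ r ih =>
    rw [it_succ, crossings_insB]
    have := bd_length n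
    have e : (r + 1) * (2 ^ (n + 1) + 4) = r * (2 ^ (n + 1) + 4) + (2 ^ (n + 1) + 4) := by ring
    omega

theorem it_val (b : Bool) (n : ℕ) (hn : 1 ≤ n) (w : Word) (r : ℕ) (σ : ℕ → ZMod 5) :
    val T5 (Piece.birth 0 b :: it b n w r) σ = 5 ^ r * val T5 (Piece.birth 0 b :: w) σ := by
  induction r with
  | zero => simp [it]
  | succ r ih =>
    rw [it_succ, val_insB b (bd n) (bd_lt n) (good_bd n hn), ih]
    ring

theorem it_ne (b : Bool) (n : ℕ) (hn : 1 ≤ n) (w : Word) {r s : ℕ} (hrs : r ≠ s) :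
    ¬ Isotopic (Piece.birth 0 b :: it b n w r) (Piece.birth 0 b :: it b n w s) := by
  intro h
  have h1 := T5_inv h (fun _ => 0)
  rw [it_val b n hn, it_val b n hn] at h1
  obtain ⟨x, hx, hx'⟩ := (opD_pos (Piece.birth 0 b :: w) Front.empty).2 0
  have h2 : val T5 (Piece.birth 0 b :: w) (fun _ => 0) = (x : ℂ) := hx'
  rw [h2] at h1
  have h3 : (5 : ℝ) ^ r * x = 5 ^ s * x := by exact_mod_cast h1
  have h4 := mul_right_cancel₀ hx.ne' h3
  exact hrs (pow_right_injective₀ (by norm_num) (by norm_num) h4)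

theorem golden_pow (n : ℕ) : Real.goldenRatio ^ n ≤ (Nat.fib (n + 2) : ℝ) ∧
    Real.goldenRatio ^ (n + 1) ≤ (Nat.fib (n + 3) : ℝ) := by
  induction n with
  | zero =>
    constructor
    · simp
    · have h2 := Real.goldenRatio_lt_two
      have e : Nat.fib (0 + 3) = 2 := rfl
      rw [e, zero_add, pow_one]
      push_cast
      linarith
  | succ n ih =>
    obtain ⟨h1, h2⟩ := ih
    refine ⟨h2, ?_⟩
    have e : Real.goldenRatio ^ (n + 1 + 1) = Real.goldenRatio ^ (n + 1) + Real.goldenRatio ^ n := by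
      have := Real.goldenRatio_sq
      calc Real.goldenRatio ^ (n + 1 + 1) = Real.goldenRatio ^ n * Real.goldenRatio ^ 2 := by ring
        _ = Real.goldenRatio ^ n * (Real.goldenRatio + 1) := by rw [this]
        _ = _ := by ring
    have e2 : Nat.fib (n + 1 + 3) = Nat.fib (n + 2) + Nat.fib (n + 3) := Nat.fib_add_two
    rw [e, e2]
    push_cast
    linarith

theorem exists_n (m : ℕ) (hm : 1 ≤ m) : ∃ n : ℕ, 1 ≤ n ∧ m < Nat.fib (n + 1) ∧
    ((2 ^ (n + 1) + 4 : ℕ) : ℝ) ≤ 12 * (m : ℝ) ^ Real.logb Real.goldenRatio 2 := by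
  classical
  have hex : ∃ n, m < Nat.fib (n + 1) := by
    refine ⟨m + 5, ?_⟩
    have := Nat.le_fib_self (show 5 ≤ m + 5 + 1 by omega)
    omega
  set n := Nat.find hex with hn
  have h1 : m < Nat.fib (n + 1) := Nat.find_spec hex
  have h2 : 2 ≤ n := by
    by_contra hc
    have : n = 0 ∨ n = 1 := by omega
    rcases this with h | h
    · rw [h] at h1
      simp at h1
      omega
    · rw [h] at h1
      simp at h1
      omega
  obtain ⟨k, hk⟩ : ∃ k, n = k + 2 := ⟨n - 2, by omega⟩
  have h3 : Nat.fib n ≤ m := by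
    have := Nat.find_min hex (m := n - 1) (by omega)
    rw [show n - 1 + 1 = n by omega] at this
    omega
  refine ⟨n, by omega, h1, ?_⟩
  set c := Real.logb Real.goldenRatio 2 with hc
  have hφ : 1 < Real.goldenRatio := Real.one_lt_goldenRatio
  have hc0 : 0 ≤ c := Real.logb_nonneg hφ (by norm_num)
  have h4 : Real.goldenRatio ^ k ≤ (m : ℝ) := by
    refine (golden_pow k).1.trans ?_
    rw [← hk]
    exact_mod_cast h3
  have h5 : (2 : ℝ) ^ k ≤ (m : ℝ) ^ c := by
    have e : (2 : ℝ) = Real.goldenRatio ^ c :=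
      (Real.rpow_logb (by linarith) (by linarith) (by norm_num)).symm
    calc (2 : ℝ) ^ k = (Real.goldenRatio ^ c) ^ k := by rw [← e]
      _ = (Real.goldenRatio ^ k) ^ c := by
          rw [← Real.rpow_natCast, ← Real.rpow_natCast, ← Real.rpow_mul (by linarith),
            ← Real.rpow_mul (by linarith), mul_comm]
      _ ≤ (m : ℝ) ^ c := Real.rpow_le_rpow (by positivity) h4 hc0
  have h6 : (1 : ℝ) ≤ (m : ℝ) ^ c := Real.one_le_rpow (by exact_mod_cast hm) hc0
  rw [hk]
  push_cast
  have e2 : (2 : ℝ) ^ (k + 2 + 1) = 8 * 2 ^ k := by ring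
  rw [e2]
  linarith

end Pool.Agent.L5helper92.CR
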