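import Pool.Agent.L5helper92.CR.Val
import Pool.Agent.L5helper92.CR.Drop

/-!
# The action of the words on the 5-colourings has period three
-/

set_option autoImplicit false

namespace Pool.Agent.L5helper92.CR

open Pool.Agent.H835R2.Knot Pool.Agent.Y466.FT Pool.Agent.N566.VV

/-- Colours of three strands. -/
abbrev V3 : Type := ZMod 5 × ZMod 5 × ZMod 5

/-- The images of the three unit vectors. -/
abbrev M3 : Type := V3 × V3 × V3

instance decV3 : DecidableEq V3 := inferInstance

instance decM3 : DecidableEq M3 := inferInstance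

instance decM34 : DecidableEq (M3 × M3 × M3 × M3) := inferInstance

/-- The linear map with the given images of the unit vectors. -/
def app (m : M3) (s : V3) : V3 :=
  (s.1 * m.1.1 + s.2.1 * m.2.1.1 + s.2.2 * m.2.2.1,
    s.1 * m.1.2.1 + s.2.1 * m.2.1.2.1 + s.2.2 * m.2.2.2.1,
    s.1 * m.1.2.2 + s.2.1 * m.2.1.2.2 + s.2.2 * m.2.2.2.2)

/-- The linear map of a braid word. -/
def mat (w : Braid) : M3 := (ac w (1, 0, 0), ac w (0, 1, 0), ac w (0, 0, 1))

/-- First `m`, then `m'`. -/
def mm (m m' : M3) : M3 := (app m' m.1, app m' m.2.1, app m' m.2.2)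

theorem ac1_app (l : Bool × ℕ) (m : M3) (s : V3) :
    ac1 l (app m s) = app (ac1 l m.1, ac1 l m.2.1, ac1 l m.2.2) s := by
  obtain ⟨b, i⟩ := l
  obtain ⟨⟨a1, a2, a3⟩, ⟨b1, b2, b3⟩, ⟨c1, c2, c3⟩⟩ := m
  obtain ⟨x, y, z⟩ := s
  cases b <;> rcases i with _ | i <;> refine Prod.ext ?_ (Prod.ext ?_ ?_) <;>
    simp only [ac1, app] <;> ring

theorem ac_app_aux (w : Braid) (m : M3) (s : V3) :
    ac w (app m s) = app (ac w m.1, ac w m.2.1, ac w m.2.2) s := by
  induction w generalizing m with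
  | nil => rfl
  | cons l w ih =>
    show ac w (ac1 l (app m s)) = app (ac w (ac1 l m.1), ac w (ac1 l m.2.1), ac w (ac1 l m.2.2)) s
    rw [ac1_app, ih]

theorem ac_app (w : Braid) (s : V3) : ac w s = app (mat w) s := by
  have h := ac_app_aux w ((1, 0, 0), (0, 1, 0), (0, 0, 1)) s
  have e : app ((1, 0, 0), (0, 1, 0), (0, 0, 1)) s = s := by
    obtain ⟨x, y, z⟩ := s
    simp [app]
  rw [e] at h
  exact h

theorem mat_append (v w : Braid) : mat (v ++ w) = mm (mat v) (mat w) := by
  unfold mat mm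
  simp only [ac_append]
  rw [ac_app w (ac v (1, 0, 0)), ac_app w (ac v (0, 1, 0)), ac_app w (ac v (0, 0, 1))]
  rfl

/-- The linear maps of `a_{n+1}`, `e_n` and of their inverses. -/
def W (n : ℕ) : M3 × M3 × M3 × M3 :=
  (mat (st n).2.1, mat (inv (st n).2.1), mat (st n).2.2, mat (inv (st n).2.2))

/-- The recursion. -/
def nx (t : M3 × M3 × M3 × M3) : M3 × M3 × M3 × M3 :=
  (mm t.1 t.2.2.2, mm t.2.2.1 t.2.1, mm t.2.2.2 t.1, mm t.2.1 t.2.2.1)

theorem W_succ (n : ℕ) : W (n + 1) = nx (W n) := by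
  unfold W nx
  have e1 : (st (n + 1)).2.1 = (st n).2.1 ++ inv (st n).2.2 := rfl
  have e2 : (st (n + 1)).2.2 = inv (st n).2.2 ++ (st n).2.1 := rfl
  rw [e1, e2, inv_append, inv_append, inv_inv]
  simp only [mat_append]

theorem W_per (n : ℕ) : W (n + 4) = W (n + 1) := by
  induction n with
  | zero =>
    rw [W_succ, W_succ, W_succ, W_succ]
    decide
  | succ n ih =>
    rw [show n + 1 + 4 = (n + 4) + 1 by ring, W_succ (n + 4), ih, ← W_succ]

theorem good_of {m : M3} {β : Braid} (h : mat β = m)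
    (hm : ∀ x y : ZMod 5, (app m (x, y, y)).1 = (app m (x, y, y)).2.1 ∧ (app m (x, y, y)).2.2 = x) :
    Good β := by
  intro x y
  rw [ac_app, h]
  exact hm x y

theorem mat_bd (n : ℕ) : mat (bd (n + 1)) =
    mm (mat (yw (n + 1))) (mm (W n).1 (mat (inv (yw (n + 1))))) := by
  unfold bd
  rw [mat_append, mat_append]
  rfl

theorem W_mod (r q : ℕ) : W (r + 1 + 3 * q) = W (r + 1) := by
  induction q with
  | zero => rfl
  | succ q ih =>
    rw [show r + 1 + 3 * (q + 1) = (r + 3 * q) + 4 by ring, W_per]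
    rw [show r + 3 * q + 1 = r + 1 + 3 * q by ring, ih]

theorem good_zero : Good (bd 1) := by
  refine good_of (mat_bd 0) ?_
  decide

theorem good_one (q : ℕ) : Good (bd (0 + 1 + 3 * q + 1)) := by
  have hy : yw (0 + 1 + 3 * q + 1) = [(true, 0)] := by
    unfold yw
    rw [if_pos (by omega)]
  refine good_of (mat_bd (0 + 1 + 3 * q)) ?_
  rw [hy, W_mod, W_succ]
  decide

theorem good_two (q : ℕ) : Good (bd (1 + 1 + 3 * q + 1)) := by
  have hy : yw (1 + 1 + 3 * q + 1) = [(false, 0), (false, 0)] := by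
    unfold yw
    rw [if_neg (by omega)]
  refine good_of (mat_bd (1 + 1 + 3 * q)) ?_
  rw [hy, W_mod, W_succ, W_succ]
  decide

theorem good_three (q : ℕ) : Good (bd (2 + 1 + 3 * q + 1)) := by
  have hy : yw (2 + 1 + 3 * q + 1) = [(false, 0), (false, 0)] := by
    unfold yw
    rw [if_neg (by omega)]
  refine good_of (mat_bd (2 + 1 + 3 * q)) ?_
  rw [hy, W_mod, W_succ, W_succ, W_succ]
  decide

theorem good_bd (n : ℕ) (hn : 1 ≤ n) : Good (bd n) := by
  by_cases h1 : n = 1
  · rw [h1]; exact good_zero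
  · have h2 : (n - 2) % 3 = 0 ∨ (n - 2) % 3 = 1 ∨ (n - 2) % 3 = 2 := by omega
    rcases h2 with h | h | h
    · have : n = 0 + 1 + 3 * ((n - 2) / 3) + 1 := by omega
      rw [this]; exact good_one _
    · have : n = 1 + 1 + 3 * ((n - 2) / 3) + 1 := by omega
      rw [this]; exact good_two _
    · have : n = 2 + 1 + 3 * ((n - 2) / 3) + 1 := by omega
      rw [this]; exact good_three _

/-! ### Letters and lengths -/

theorem inv_length (w : Braid) : (inv w).length = w.length := by simp [inv]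

theorem lt_inv {w : Braid} (h : ∀ l ∈ w, l.2 < 2) : ∀ l ∈ inv w, l.2 < 2 := by
  intro l hl
  unfold inv at hl
  rw [List.mem_reverse, List.mem_map] at hl
  obtain ⟨x, hx, rfl⟩ := hl
  exact h x hx

theorem lt_append {v w : Braid} (hv : ∀ l ∈ v, l.2 < 2) (hw : ∀ l ∈ w, l.2 < 2) :
    ∀ l ∈ v ++ w, l.2 < 2 := by
  intro l hl
  rcases List.mem_append.1 hl with h | h
  · exact hv l h
  · exact hw l h

theorem st_lt (n : ℕ) : (∀ l ∈ (st n).1, l.2 < 2) ∧ (∀ l ∈ (st n).2.1, l.2 < 2) ∧
    ∀ l ∈ (st n).2.2, l.2 < 2 := by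
  induction n with
  | zero =>
    refine ⟨?_, ?_, ?_⟩ <;> decide
  | succ n ih =>
    obtain ⟨_, h2, h3⟩ := ih
    exact ⟨h2, lt_append h2 (lt_inv h3), lt_append (lt_inv h3) h2⟩

theorem yw_lt (n : ℕ) : ∀ l ∈ yw n, l.2 < 2 := by
  unfold yw
  split_ifs <;> decide

theorem bd_lt (n : ℕ) : ∀ l ∈ bd n, l.2 < 2 :=
  lt_append (yw_lt n) (lt_append (st_lt n).1 (lt_inv (yw_lt n)))

theorem st_length (n : ℕ) : (st (n + 1)).2.1.length = 2 ^ (n + 3) ∧
    (st (n + 1)).2.2.length = 2 ^ (n + 3) := by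
  induction n with
  | zero => decide
  | succ n ih =>
    obtain ⟨h1, h2⟩ := ih
    have e1 : (st (n + 1 + 1)).2.1 = (st (n + 1)).2.1 ++ inv (st (n + 1)).2.2 := rfl
    have e2 : (st (n + 1 + 1)).2.2 = inv (st (n + 1)).2.2 ++ (st (n + 1)).2.1 := rfl
    rw [e1, e2, List.length_append, List.length_append, inv_length, h1, h2]
    constructor <;> ring

theorem aw_length (n : ℕ) : (aw n).length ≤ 2 ^ (n + 1) := by
  rcases n with _ | _ | n
  · decide
  · decide
  · have : aw (n + 1 + 1) = (st (n + 1)).2.1 := rfl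
    rw [this, (st_length n).1]

theorem bd_length (n : ℕ) : (bd n).length ≤ 2 ^ (n + 1) + 4 := by
  unfold bd
  rw [List.length_append, List.length_append, inv_length]
  have h1 : (yw n).length ≤ 2 := by
    unfold yw
    split_ifs <;> decide
  have h2 := aw_length n
  omega

theorem crossings_insB (b : Bool) (β : Braid) (w : Word) :
    crossings (insB b β w) = crossings (Piece.birth 0 b :: w) + β.length := by
  unfold crossings insB
  have e : (draw β).countP Piece.isCrossing = β.length := by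
    unfold draw
    rw [List.countP_map]
    have : (Piece.isCrossing ∘ piece) = fun _ => true := by
      funext l
      obtain ⟨b, i⟩ := l
      cases b <;> rfl
    rw [this, List.countP_true]
  rw [List.countP_cons_of_neg (by simp [Piece.isCrossing]),
    List.countP_cons_of_neg (by simp [Piece.isCrossing]),
    List.countP_append, e, List.countP_cons_of_neg (by simp [Piece.isCrossing]),
    List.countP_cons_of_neg (by simp [Piece.isCrossing])]
  omega

end Pool.Agent.L5helper92.CR
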