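import Pool.Agent.L5helper92.CR.Fox

/-!
# The number of 5-colourings of the new diagrams
-/

set_option autoImplicit false

namespace Pool.Agent.L5helper92.CR

open Pool.Agent.H835R2.Knot Pool.Agent.Y466.FT Pool.Agent.N566.VV
open Finset

theorem opP_dir (p : Piece) (d d' : ℕ → Bool) (f : F (ZMod 5)) : opP T5 p d f = opP T5 p d' f := by
  cases p with
  | birth i b => rfl
  | death i => rfl
  | pos i => simp [opP, T5]
  | neg i => simp [opP, T5]

theorem opD_dir (w : Word) (A B : Front) (f : F (ZMod 5)) : opD T5 w A f = opD T5 w B f := by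
  induction w generalizing A B with
  | nil => rfl
  | cons p w ih =>
    show opP T5 p A.dir (opD T5 w (p.act A) f) = opP T5 p B.dir (opD T5 w (p.act B) f)
    rw [opP_dir p A.dir B.dir, ih (p.act A) (p.act B)]

/-- The condition on the braid. -/
def Good (β : Braid) : Prop :=
  ∀ x y : ZMod 5, (ac β (x, y, y)).1 = (ac β (x, y, y)).2.1 ∧ (ac β (x, y, y)).2.2 = x

theorem val_insB (b : Bool) (β : Braid) (hβ : ∀ l ∈ β, l.2 < 2) (hg : Good β) (w : Word)
    (σ : ℕ → ZMod 5) : val T5 (insB b β w) σ = 5 * val T5 (Piece.birth 0 b :: w) σ := by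
  set f : F (ZMod 5) := fun _ => 1 with hf
  set A' : Front := (Piece.birth 0 b).act Front.empty with hA'
  have hR : val T5 (Piece.birth 0 b :: w) σ = ∑ x : ZMod 5, opD T5 w A' f (insS 0 x x σ) := by
    show Bl T5 0 (opD T5 w A' f) σ = _
    unfold Bl
    refine Finset.sum_congr rfl fun x _ => ?_
    show (1 : ℂ) * _ = _
    rw [one_mul]
    rfl
  have hL : val T5 (insB b β w) σ =
      ∑ x : ZMod 5, ∑ y : ZMod 5, opD T5 w A' f (insS 0 x x σ) := by
    show Bl T5 0 (opD T5 (Piece.birth 1 (!b) :: (draw β ++ Piece.death 0 :: w)) A' f) σ = _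
    unfold Bl
    refine Finset.sum_congr rfl fun x _ => ?_
    show (1 : ℂ) * opD T5 (Piece.birth 1 (!b) :: (draw β ++ Piece.death 0 :: w)) A' f
      (insS 0 x x σ) = _
    rw [one_mul]
    show Bl T5 1 (opD T5 (draw β ++ Piece.death 0 :: w) ((Piece.birth 1 (!b)).act A') f)
      (insS 0 x x σ) = _
    unfold Bl
    refine Finset.sum_congr rfl fun y _ => ?_
    show (1 : ℂ) * opD T5 (draw β ++ Piece.death 0 :: w) ((Piece.birth 1 (!b)).act A') f
      (insS 1 y y (insS 0 x x σ)) = _
    rw [one_mul, opD_draw β hβ]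
    have e : (insS 1 y y (insS 0 x x σ) 0, insS 1 y y (insS 0 x x σ) 1,
        insS 1 y y (insS 0 x x σ) 2) = (x, y, y) := by
      simp [insS]
    rw [e]
    obtain ⟨h1, h2⟩ := hg x y
    generalize ac β (x, y, y) = s at h1 h2
    show Dl T5 0 (opD T5 w _ f) (set3 s (insS 1 y y (insS 0 x x σ))) = _
    unfold Dl
    have c1 : set3 s (insS 1 y y (insS 0 x x σ)) (0 + 1) =
        T5.rev (set3 s (insS 1 y y (insS 0 x x σ)) 0) := by
      show s.2.1 = s.1
      exact h1.symm
    rw [if_pos c1]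
    show (1 : ℂ) * _ = _
    rw [one_mul, opD_dir w _ A']
    congr 1
    funext p
    unfold delS
    rw [if_neg (by omega)]
    unfold set3
    rcases p with _ | _ | p
    · simp only [insS, zero_add]
      simp [h2]
    · simp [insS]
    · have g0 : ¬ (p + 1 + 1 + 2 = 0) := by omega
      have g1 : ¬ (p + 1 + 1 + 2 = 1) := by omega
      have g2 : ¬ (p + 1 + 1 + 2 = 2) := by omega
      rw [if_neg g0, if_neg g1, if_neg g2]
      unfold insS
      rw [if_neg (by omega), if_neg (by omega), if_neg (by omega), if_neg (by omega),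
        if_neg (by omega), if_neg (by omega), if_neg (by omega), if_neg (by omega),
        if_neg (by omega)]
      congr 1
  rw [hL, hR, Finset.mul_sum]
  refine Finset.sum_congr rfl fun x _ => ?_
  rw [Finset.sum_const, Finset.card_univ, ZMod.card, nsmul_eq_mul]
  norm_num

theorem opP_pos (p : Piece) (d : ℕ → Bool) (f : F (ZMod 5))
    (h1 : ∀ σ, ∃ r : ℝ, 0 ≤ r ∧ f σ = r) (h2 : ∀ x : ZMod 5, ∃ r : ℝ, 0 < r ∧ f (fun _ => x) = r) :
    (∀ σ, ∃ r : ℝ, 0 ≤ r ∧ opP T5 p d f σ = r) ∧
      (∀ x : ZMod 5, ∃ r : ℝ, 0 < r ∧ opP T5 p d f (fun _ => x) = r) := by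
  choose g hg0 hg using h1
  cases p with
  | birth i b =>
    have e : ∀ σ, opP T5 (Piece.birth i b) d f σ = ((∑ x : ZMod 5, g (insS i x x σ) : ℝ) : ℂ) := by
      intro σ
      show ∑ x : ZMod 5, (1 : ℂ) * f (insS i x x σ) = _
      push_cast
      refine Finset.sum_congr rfl fun x _ => ?_
      rw [one_mul, hg]
    refine ⟨fun σ => ⟨_, Finset.sum_nonneg fun x _ => hg0 _, e σ⟩, fun x => ⟨_, ?_, e _⟩⟩
    obtain ⟨r, hr, hr'⟩ := h2 x
    refine Finset.sum_pos' (fun y _ => hg0 _) ⟨x, Finset.mem_univ _, ?_⟩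
    have e1 : insS i x x (fun _ => x) = fun _ => x := by
      funext p
      unfold insS
      split_ifs <;> rfl
    rw [e1]
    have e2 := hg (fun _ => x)
    rw [hr'] at e2
    have : r = g (fun _ => x) := by exact_mod_cast e2
    rw [← this]
    exact hr
  | death i =>
    have e : ∀ σ : ℕ → ZMod 5, opP T5 (Piece.death i) d f σ =
        ((if σ (i + 1) = σ i then g (delS i σ) else 0 : ℝ) : ℂ) := by
      intro σ
      show (if σ (i + 1) = σ i then (1 : ℂ) * f (delS i σ) else 0) = _
      split_ifs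
      · rw [one_mul, hg]
      · simp
    refine ⟨fun σ => ⟨_, ?_, e σ⟩, fun x => ⟨_, ?_, e _⟩⟩
    · split_ifs
      · exact hg0 _
      · exact le_rfl
    · rw [if_pos rfl]
      obtain ⟨r, hr, hr'⟩ := h2 x
      have e1 : delS i (fun _ => x) = fun _ => x := by
        funext p
        unfold delS
        split_ifs <;> rfl
      rw [e1]
      have e2 := hg (fun _ => x)
      rw [hr'] at e2
      have : r = g (fun _ => x) := by exact_mod_cast e2
      rw [← this]
      exact hr
  | pos i =>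
    have e : ∀ σ : ℕ → ZMod 5, opP T5 (Piece.pos i) d f σ =
        ((g (updS i (fp (σ i, σ (i + 1))).1 (fp (σ i, σ (i + 1))).2 σ) : ℝ) : ℂ) := by
      intro σ
      show ((if d i = d (i + 1) then T5.k else T5.k') • Xl T5.P i f) σ = _
      have : (if d i = d (i + 1) then T5.k else T5.k') = 1 := by simp [T5]
      rw [this, one_smul]
      unfold Xl
      rw [Finset.sum_eq_single (fp (σ i, σ (i + 1)))]
      · have : T5.P (σ i, σ (i + 1)) (fp (σ i, σ (i + 1))) = 1 := by simp [T5]
        rw [this, one_mul, hg]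
      · intro p _ hp
        have : T5.P (σ i, σ (i + 1)) p = 0 := by
          simp only [T5]
          rw [if_neg hp]
        rw [this, zero_mul]
      · intro h
        exact absurd (Finset.mem_univ _) h
    refine ⟨fun σ => ⟨_, hg0 _, e σ⟩, fun x => ⟨_, ?_, e _⟩⟩
    obtain ⟨r, hr, hr'⟩ := h2 x
    have e1 : updS i (fp (x, x)).1 (fp (x, x)).2 (fun _ => x) = fun _ => x := by
      funext p
      unfold updS fp
      have : 2 * x - x = x := by ring
      simp only [this]
      split_ifs <;> rfl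
    rw [e1]
    have e2 := hg (fun _ => x)
    rw [hr'] at e2
    have : r = g (fun _ => x) := by exact_mod_cast e2
    rw [← this]
    exact hr
  | neg i =>
    have e : ∀ σ : ℕ → ZMod 5, opP T5 (Piece.neg i) d f σ =
        ((g (updS i (fn (σ i, σ (i + 1))).1 (fn (σ i, σ (i + 1))).2 σ) : ℝ) : ℂ) := by
      intro σ
      show ((if d i = d (i + 1) then T5.k' else T5.k) • Xl T5.Q i f) σ = _
      have : (if d i = d (i + 1) then T5.k' else T5.k) = 1 := by simp [T5]
      rw [this, one_smul]
      unfold Xl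
      rw [Finset.sum_eq_single (fn (σ i, σ (i + 1)))]
      · have : T5.Q (σ i, σ (i + 1)) (fn (σ i, σ (i + 1))) = 1 := by simp [T5]
        rw [this, one_mul, hg]
      · intro p _ hp
        have : T5.Q (σ i, σ (i + 1)) p = 0 := by
          simp only [T5]
          rw [if_neg hp]
        rw [this, zero_mul]
      · intro h
        exact absurd (Finset.mem_univ _) h
    refine ⟨fun σ => ⟨_, hg0 _, e σ⟩, fun x => ⟨_, ?_, e _⟩⟩
    obtain ⟨r, hr, hr'⟩ := h2 x
    have e1 : updS i (fn (x, x)).1 (fn (x, x)).2 (fun _ => x) = fun _ => x := by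
      funext p
      unfold updS fn
      have : 2 * x - x = x := by ring
      simp only [this]
      split_ifs <;> rfl
    rw [e1]
    have e2 := hg (fun _ => x)
    rw [hr'] at e2
    have : r = g (fun _ => x) := by exact_mod_cast e2
    rw [← this]
    exact hr

theorem opD_pos (w : Word) (A : Front) :
    (∀ σ, ∃ r : ℝ, 0 ≤ r ∧ opD T5 w A (fun _ => 1) σ = r) ∧
      (∀ x : ZMod 5, ∃ r : ℝ, 0 < r ∧ opD T5 w A (fun _ => 1) (fun _ => x) = r) := by
  induction w generalizing A with
  | nil =>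
    exact ⟨fun σ => ⟨1, zero_le_one, by simp [opD]⟩, fun x => ⟨1, zero_lt_one, by simp [opD]⟩⟩
  | cons p w ih =>
    obtain ⟨h1, h2⟩ := ih (p.act A)
    exact opP_pos p A.dir _ h1 h2

theorem not_isotopic (b : Bool) (β : Braid) (hβ : ∀ l ∈ β, l.2 < 2) (hg : Good β) (w : Word) :
    ¬ Isotopic (Piece.birth 0 b :: w) (insB b β w) := by
  intro h
  have h1 := T5_inv h (fun _ => 0)
  rw [val_insB b β hβ hg w] at h1
  obtain ⟨r, hr, hr'⟩ := (opD_pos (Piece.birth 0 b :: w) Front.empty).2 0
  have h2 : val T5 (Piece.birth 0 b :: w) (fun _ => 0) = (r : ℂ) := hr'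
  rw [h2] at h1
  have h3 : r = 5 * r := by exact_mod_cast h1
  linarith

end Pool.Agent.L5helper92.CR
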